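import Pool.Agent.Helper15K1.TT.MainA

/-!
# The Tate conjecture for smooth varieties reduces to the top degree of affine varieties

Fix a codimension `i` and a prime `ℓ`. For a smooth variety `V` over a finitely generated field `k`
(of any characteristic different from `ℓ`) let `T^i(V)` be the statement that the classes in
`H^{2i}(V ⊗ k̄, ℚ_ℓ(i))` invariant under the Galois group are combinations of classes of cycles
(`TateConj`). No properness is assumed, neither of `V` nor elsewhere.

*Theorem.* Let `V` be a smooth variety over the finitely generated field `k` over which there is a
bundle of affine spaces with an affine total space (by Jouanolou and Thomason there is one over every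
smooth variety). Then `T^i(V)` holds, or there are a purely transcendental extension
`K = k(t_1, …, t_m)` and a smooth affine variety `Y` over `K`, of dimension exactly `2 i`, such that
`T^i(Y)` implies `T^i(V)`. So for every finitely generated field `k` the Tate conjecture in
codimension `i` for all these smooth varieties over all fields `k(t_1, …, t_m)` is equivalent to the
Tate conjecture in codimension `i` for the smooth affine varieties of dimension `2 i` over these
fields. Here `H^{2i}` is the cohomology in the top degree: it is a question on the invariants in
`H^d(Y ⊗ K̄, ℚ_ℓ(d/2))` of a smooth affine variety `Y` of even dimension `d`.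

The varieties are schemes (`SmVar`). The cohomology theory is an abstract one (`Theory`) with the
properties of étale cohomology and of Chow groups listed in `Theory.Standard`: functoriality,
compatibility with the Galois actions and the cycle classes, homotopy invariance for the cohomology
and for the Chow groups, Artin vanishing, and the weak Lefschetz theorem for the generic hyperplane
section of an affine variety. No geometric statement is assumed: the existence of the generic
hyperplane section, its smoothness (Bertini), its integrality, its dimension and its local embedding
in the universal hyperplane are proved (`exists_genericSection`), for all fields, finite or not.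

*Proof.* By homotopy invariance `V` may be replaced by the affine total space `J`. If `dim J < 2 i`
there is no cohomology in degree `2 i`. If `dim J > 2 i`, let `Y` be the generic hyperplane section of
`J ⊆ 𝔸ⁿ`, over `K = k(c_0, …, c_n)`. A Tate class `x` on `J` restricts to a Tate class on `Y`, which is
algebraic by induction. Its cycles are the restrictions of cycles on the universal hyperplane, a
bundle of affine spaces over `J`, and so of cycles on `J`; and the restriction
`H^{2i}(J) ⟶ H^{2i}(Y)` is injective.
-/

set_option autoImplicit false

open AlgebraicGeometry

namespace Pool.Agent.Results.MP_2a05c8_ag.AffineOfDimTwice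

open Pool.Agent.Helper15K1.TA Pool.Agent.Helper15K1.TA.Theory

/-- **The Tate conjecture for smooth varieties reduces to the top degree of affine varieties.** -/
theorem result {Λ : Type} [Field Λ] (D : Theory Λ) (hD : D.Standard) (i : ℕ) (k : Type) [Field k]
    (hk : IsFG k) :
    (∀ V : SmVar k, V.HasAffineBundle →
      D.TateConj V i ∨ ∃ (K : Type) (_ : Field K) (_ : Algebra k K) (Y : SmVar K),
        IsRational k K ∧ IsAffine Y.X ∧ Y.dim = 2 * i ∧ (D.TateConj Y i → D.TateConj V i)) ∧
    ((∀ (K : Type) [Field K] [Algebra k K], IsRational k K → ∀ V : SmVar K, V.HasAffineBundle →
        D.TateConj V i) ↔
      (∀ (K : Type) [Field K] [Algebra k K], IsRational k K → ∀ V : SmVar K, IsAffine V.X →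
        V.dim = 2 * i → D.TateConj V i)) := by
  refine ⟨fun V hV => exists_affine hD i hk V hV, fun h K _ _ hK V hV _ =>
    h K hK V (hasAffineBundle_of_isAffine V hV), fun h K _ _ hK V hV => ?_⟩
  rcases exists_affine hD i (hK.isFG hk) V hV with hT | ⟨L, _, _, Y, hL, hY, hdY, hT⟩
  · exact hT
  · let _ : Algebra k L := ((algebraMap K L).comp (algebraMap k K)).toAlgebra
    have _ : IsScalarTower k K L := IsScalarTower.of_algebraMap_eq fun _ => rfl
    exact hT (h L (hK.trans hL) Y hY hdY)

end Pool.Agent.Results.MP_2a05c8_ag.AffineOfDimTwice
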