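import Pool.Agent.Hx88.NS.Main

/-!
# The Tate conjecture for the products of powers of varieties with a nodal reduction with arbitrary
# smooth varieties, and for the open subvarieties of these products

Let `k₀` be a finitely generated field, for example a number field, `Γ` its Galois group, `W` the
`ℓ`-adic cohomology of the smooth projective varieties over the separable closure (coefficients in
`ℚ_ℓ` or a finite extension), and `χ` the inverse of the cyclotomic character, so that
`g c = χ(g)^j c` for `c ∈ H^(2j)` says that `c` is invariant in `H^(2j)(j)`. The theorem is proved for an
abstract Weil cohomology theory with an action of a group.

Let `X i`, `i ∈ ι`, be smooth projective varieties over `k₀` such that (`NodalOver`)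

* homological and numerical equivalence coincide for `X i`, the transcendental cohomology `T i`
  (the orthogonal complement of the algebraic classes) is in the middle degree `d i = dim X i`, and no
  open subgroup of `Γ` has a stable subspace of `T i` besides `0` and `T i`;
* `X i` has a nodal reduction: at some place `v i`, prime to `ℓ`, it has a model whose
  special fibre has one ordinary double point (or several with the same vanishing cycle up to sign); by
  the Picard-Lefschetz formula there is an element `g` of the inertia group of `v i` with
  `g t = t + c (δ, t) δ` on `T i`, `c ≠ 0`, `δ ≠ 0`, and `χ(g) = 1`;
* the varieties `X j` with `j ≠ i`, the projective variety `Z` and the variety `U` below have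
  an unramified cohomology at `v i` (for example good reduction).

For example the `X i` are elliptic curves without complex multiplication with multiplicative reduction
at `v i`, or curves, hypersurfaces or complete intersections, K3 surfaces, cubic fourfolds, which are
members of Lefschetz pencils with large monodromy, each of them with a node at a place where all the
others and `Z` and `U` have good reduction.

Let `U` be **any smooth variety** over `k₀`, **not necessarily proper** (`AnyVar`): its cohomology `M`
is a finite-dimensional graded space with an action of `Γ`, not assumed to be pure or semisimple, and
there are the spaces `cyc V j` of the combinations of the classes of cycles of codimension `j` on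
`V × U`, in `H(V × U) = H(V) ⊗ M`, for all smooth projective `V`, stable under pull-backs by morphisms
of `V`, products with cycles on `V`, and push-forward along the projections `V × V' × U ⟶ V' × U`.

Let `Y = X i₁ ^ n₁ × (X i₂ ^ n₂ × (⋯ × Z))` with different indices (`PowTower`); the exponents are
arbitrary if the dimension of `X i` is odd, and smaller than the dimension of `T i` if it is even.

**Theorem.**

1. The Tate conjecture for the smooth variety `Y × U` (cycles of all codimensions, all finite
   extensions of `k₀`) is equivalent to the Tate conjecture for `Z × U`.
2. The same holds for the open subvarieties, if homological and numerical equivalence coincide
   for the powers of the `X i` (`PowersHomNum`; over a field of characteristic zero this follows from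
   the standard conjecture of Lefschetz for `X i`, which is known for curves, surfaces, hypersurfaces;
   in general see `MP_f569db_ag.NodalProducts` in the library) and the classes of cycles on `Y × U`
   are defined over finite extensions of `k₀` (`CyclesDefined`):
   `TateOpens` for `Y × U` is equivalent to `TateOpens` for `Z × U`. Here `TateOpens` says that for all
   `j` the classes `c ∈ H^(2j)(Y × U)` for which `g c - χ(g)^j c`, `g` in an open subgroup, are
   combinations of classes of cycles of codimension `j`, are such combinations. If `Y × U` is
   projective, this is the Tate conjecture in codimension `j` for all open subvarieties of `Y × U`
   with complement of codimension at least `j` (by weights all invariants of `H^(2j)(O)(j)` come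
   from `H^(2j)(Y × U)(j)`, and the kernel of the restriction is spanned by the components of
   codimension `j` of the complement); it is stronger than the Tate conjecture for `Y × U` if the action
   of `Γ` is not semisimple.

In particular, if the Tate conjecture is known for `U` (curves, open subvarieties of abelian
varieties or products of curves which are known to satisfy it, tori, homogeneous spaces of linear
groups, complements of arrangements of hyperplanes, moduli of pointed rational curves), then it holds
for `X ^ n × U` for all `n` and each odd-dimensional `X` as above with a node at one place where `U` has
good reduction, and for all `n` smaller than the rank of `T` for even-dimensional `X`.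

For **proper** `U` the first part is contained in the theorem on `X ^ n × Z` of the library
(`MP_4776b1_ag.PowersFromReduction`, `MP_f569db_ag.NodalProducts`: the definitions are taken from
there); new are the arbitrary smooth varieties `U`, whose cohomology is neither pure nor
self-dual nor semisimple, and the open subvarieties. `MP_2a05c8_ag.DifferentHeightsTimesSmooth` is a
theorem of the same form on other varieties (K3 surfaces whose reductions have different heights), with
a different proof (slopes).

The idea of the proof. A Tate class on `X ^ n × Y × U` is a family of multilinear forms on `T` with
values in `H(Y) ⊗ H(U)` which are equivariant under an open subgroup. As `g` acts trivially on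
`H(Y) ⊗ H(U)`, whatever this space is, the conjugates of `g` generate a Lie algebra which kills all these
forms and contains the orthogonal or symplectic Lie algebra of `T`; by the first fundamental theorem
of invariant theory the class is a combination of external products of algebraic classes on
`X ^ n` and of classes on `Y × U`. Homogeneous dual linear forms give the components on `Y × U`, which
are Tate classes. For the open subvarieties one applies this first to the classes of cycles and then
to the transcendental part (with respect to `X ^ n`) of the given class.
-/

set_option autoImplicit false

open CategoryTheory AlgebraicGeometry

universe u v w

namespace Pool.Agent.Results.MP_2a05c8_ag.NodalPowersTimesSmooth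

open Pool.Agent.H914 Pool.Agent.TH125.Gal Pool.Agent.N179.FO Pool.Agent.Hx88.NS
  VarClass Obj WeilCohomology

/-- **The Tate conjecture for the products of powers of varieties with a nodal reduction with arbitrary
smooth varieties, and for the open subvarieties of these products.** -/
theorem result {k : Type u} [Field k] {𝒱 : VarClass k} {ops : CycleOps 𝒱}
    {W : WeilCohomology.{u, v} ops} {Γ : Type w} [Group Γ] (χ : Γ →* W.Kˣ)
    {ι : Type} (X : ι → GVar W Γ) (Z : GVar W Γ) (U : AnyVar W Γ) (h : NodalOver χ X Z U)
    (S : Set ι) (Y : GVar W Γ) (hY : PowTower X Z S Y) :
    (TateTimes χ Y U ↔ TateTimes χ Z U) ∧
      ((∀ i, PowersHomNum χ (X i)) → CyclesDefined χ Y U →
        (TateOpens χ Y U ↔ TateOpens χ Z U)) :=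
  ⟨tower_times h hY, fun hX hd => tower_opens h hX hY hd⟩

end Pool.Agent.Results.MP_2a05c8_ag.NodalPowersTimesSmooth
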