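import Mathlib
import Pool.Agent.Y1.TS.Main
import Pool.Agent.Hx18.PP.Rig

/-!
# The Tate conjecture for the products of arbitrary smooth varieties with abelian varieties with one
Frobenius element of a rigid Newton polygon

Let `K i` (`i` in a finite set) be CM fields. Nothing is assumed about their degrees and their Galois
groups. They are pairwise independent: for `i ≠ k` and all complex embeddings `φ` of `K i` and `ψ` of
`K k` some automorphism of `ℂ` is the identity on `φ (K i)` and the complex conjugation on `ψ (K k)`
(this is no condition if there is only one field). Let `π i` be a Weil number for `p ^ a` which
generates `K i`. We fix an isomorphism `ν` of the algebraic closure of `ℚ_p` with `ℂ`; so every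
complex embedding `φ` of `K i` defines a slope of `π i`, between `0` and `a`. It is of the form
`(a + κ M φ) / 2` or `(a - κ M φ) / 2` with a real number `κ ≠ 0` and a function `M` with integral
values, invariant under complex conjugation (`HasType`; the sign is given by a set `Φ` of
embeddings, one out of each complex conjugate pair). The weight `M φ` is zero if the slope is `a / 2`.

Suppose that for each `i` the weights `M` are of one of the following four kinds (`IsRigid`). Here
`F` is a subfield of `K = K i` (for instance the field of the rational numbers), `τ` is a real embedding
of `F`, and `φ` is over `τ` if it extends `τ`.

* (`PrimePowerBlock`) There is a prime number `l` such that `K` has the degree `2 l ^ k` over `F`, the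
  weights `M φ` are divisible by `l` if `φ` is not over `τ`, and no sum of the `l ^ k` numbers
  `± M φ` (one `φ` over `τ` out of each complex conjugate pair) is divisible by `l`. For instance: the
  degree of `K` is `2 ^ (k + 1)`, the slopes are `0`, `a / 2` and `a`, and the multiplicity of the
  slope `0` is odd; or there is a place of degree one of a totally real subfield `F` of `K`, of
  index `2 ^ (k + 1)`, such that the slopes at the places of `K` over the other places of `F` above `p`
  are `a / 2`, and the slopes over this place are as before.
* (`ParityBlock`) The degree of `K` over `F` is divisible by four, and exactly the weights of the `φ` over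
  `τ` are odd, with the exception of one complex conjugate pair. For instance: the abelian varieties of
  even dimension that are almost ordinary.
* (`Dominant`) `∑ M φ < M φ₀` for some `φ₀`, where `φ` runs through the other embeddings, one out of each
  complex conjugate pair. For instance: abelian varieties of K3 type.
* (`TwoWeights`) There is an odd prime number `l` such that all weights are divisible by `l` with the
  exception of those of two complex conjugate pairs over `τ`, which are equal modulo `l` up to the
  sign, and all subfields of `K` that contain `F`, except for `K`, are totally real. For instance: the
  slopes are `0`, `a / 2` and `a`, the multiplicity of the slope `0` is two, and `K` has no proper CM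
  subfields.

**Theorem.** Let `k` be a finitely generated field (of any characteristic), `A` an abelian variety
over `k`, and let `γ` be a Frobenius element of the Galois group `Γ` of `k` at **one** place of good
reduction, the residue field having `p ^ a` elements, for which the characteristic polynomial on the
Tate module `V = V_ℓ (A)` is the product of the minimal polynomials of the `π i`. Let `U` be an
**arbitrary smooth variety** over `k`, proper or not, and `M = W_b H^b(U, ℚ_ℓ(i))`, or any other
representation of `Γ`, such that the eigenvalues of `γ` on `M` are roots of a polynomial `f ≠ 0` with
rational coefficients all of whose complex roots `α` are unrelated to the fields `K i` (`UnrelatedTo`):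
a function `n` on the complex embeddings of `K i` with `n (conj φ) = - n φ` which is invariant under
all automorphisms of `ℂ` that fix a power of `α` is zero. This is so, for instance, if a power of `α`
lies in a field linearly disjoint from the normal closures of the `K i`, or in a totally real field.

Then (`ClassesSplit`) **the classes in `H^j(A ^ r) ⊗ M` which are fixed by an open subgroup of `Γ` are
zero for odd `j`, and linear combinations of products of `m` Tate classes of degree two on `A ^ r` (that
is, of divisor classes, by Tate, Zarhin and Faltings) and of Tate classes in `M(-m)` for `j = 2 m`.**
So for all these `A` and `U` the Tate conjecture for `A ^ r × U` (all codimensions, all `r`, over all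
finite extensions) is equivalent to the Tate conjecture for `U`. If `U` is a point it is the Tate
conjecture for all powers of `A`. The hypotheses on `V` (`IsPolarised`) are the Weil pairing and the
semisimplicity (Tate, Zarhin, Faltings).

The proof shows first that the angle rank is maximal: all multiplicative relations between the
conjugates of the `π i` and `p ^ a` are consequences of the relations `π * conj π = p ^ a`. This is
new. The step from it to the theorem is the one of the starting files (`AllCMTypesTimesSmooth`).
A multiplicative relation gives, for each automorphism `σ` of `ℂ`, a linear relation between the numbers
`± M (σ φ)`. In the first case we reduce it modulo `l` and use that a Sylow `l`-subgroup of the Galois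
group of the normal closure, for a suitable choice of it, acts transitively on the `l ^ k` pairs of
embeddings over `τ`. In the second case the relation modulo two says that the coefficients at the pairs
over one conjugate of `τ` are all equal to their sum, which is zero, since their number is even. In
the third case we move the largest coefficient to `φ₀`. In the fourth case the coefficients `n`
satisfy `n (σ φ₁) = - n (σ φ₂)` modulo `l` for all `σ`; the `σ` under which this property of `φ₁` is
unchanged form a group, whose fixed field is a proper CM subfield of `K`, if `n` is not zero modulo `l`.
-/

set_option autoImplicit false

namespace Pool.Agent.Results.MP_2a05c8_ag.RigidWeightsTimesSmooth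

open NumberField Module Pool.Agent.H204R3.CM Pool.Agent.H977R3.CM Pool.Agent.Y1.CT
  Pool.Agent.Y1.TS Pool.Agent.Y137.MV Pool.Agent.Hx18.PP

/-- **The Tate conjecture for `A ^ r × U` is equivalent to the Tate conjecture for `U`, for the
abelian varieties `A` over finitely generated fields with one Frobenius element given by Weil
numbers with rigid weights and all unrelated smooth varieties `U`.** -/
theorem result (p : ℕ) [Fact p.Prime] (ν : PadicAlgCl p ≃+* ℂ) (I : Type) [Fintype I]
    (K : I → Type) [∀ i, Field (K i)] [∀ i, NumberField (K i)] [∀ i, IsCMField (K i)]
    (hind : PairwiseIndep K) (M : ∀ i, (K i →+* ℂ) → ℤ)
    (hM : ∀ i φ, M i (ComplexEmbedding.conjugate φ) = M i φ) (hrig : ∀ i, IsRigid (M i))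
    (Φ : ∀ i, Set (K i →+* ℂ)) (hΦ : ∀ i, IsCMType (Φ i)) (a : ℕ) (π : ∀ i, K i)
    (hπ : ∀ i, HasType ν a (M i) (Φ i) (π i)) :
    TateClassesSplit (p := p) a K π := by
  have h := angle_types hind hM hΦ (fun i =>
    Pool.Agent.Q29.DP.notMem_degTypes_of_noRelations
      (noRelations_rigid (hM i) (hrig i) (hΦ i))) hπ
  exact split_of_angle (fun i => (hπ i).gen) (fun i => (hπ i).weil) h

end Pool.Agent.Results.MP_2a05c8_ag.RigidWeightsTimesSmooth
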