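import Pool.Agent.Hx88.SS.Main

/-!
# The Tate conjecture for the products of powers of varieties which degenerate simultaneously with
# arbitrary smooth varieties, and for the open subvarieties of these products

Let `k₀` be a finitely generated field, for example a number field, `Γ` its Galois group, `W` the
`ℓ`-adic cohomology of the smooth projective varieties over the separable closure, with coefficients
in the algebraic closure of `ℚ_ℓ`, and `χ` the inverse of the cyclotomic character, so that
`g c = χ(g)^j c` for `c ∈ H^(2j)` says that `c` is invariant in `H^(2j)(j)`. The theorem is proved for an
abstract Weil cohomology theory with an action of a group.

Let `X i`, `i ∈ ι`, be finitely many smooth projective varieties of odd dimension over `k₀` (for example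
curves) such that (`SemistableTimes`)

* homological and numerical equivalence coincide for `X i`, the transcendental cohomology `T i`
  (the orthogonal complement of the algebraic classes; for curves `T i = H^1`) is in the middle degree
  `dim X i`, and no open subgroup of `Γ` has a stable subspace of `T i` besides `0` and `T i`; for
  `i ≠ j` the representations `T i` and `T j` are not isomorphic up to scalars;
* let `N` be the set of the elements `g ∈ Γ` with `χ(g) = 1` which act trivially on the cohomology of the
  projective variety `Z` and of the variety `U` below, and with `(g - 1) ^ 2 = 0` on **all** `T j`
  (`quadSet`); for example the elements of the inertia groups (for wild or tame, a subgroup of finite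
  index with stable reduction of the curves `X j`) at the places where `Z` and `U` have an
  unramified cohomology. For every `i` some `g ∈ N` has defects on `T i` without a common prime factor, or
  the defect two; or the conjugates of some `g ∈ N` act irreducibly on `T i` and the defects of all elements
  of `N` have no common prime factor (`SmallVar`). Here the defects of `g` are the rank of `g - 1` on `T i`
  and the multiplicities of the nonzero eigenvalues of `(g - 1) (g' - 1)` on `T i`, for `g' ∈ N`.

So **all `X j` may have bad reduction at the same places**, even at only one place, and the rank of the
local monodromy (the toric rank of the Jacobian) may be large; Picard-Lefschetz formulas are not needed.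
For example let the `X i` be curves with `End = ℤ` for the Jacobians, pairwise not isogenous, such that at
one place `v`, where `Z` and `U` have good reduction, the toric rank of every `X i` is one, two or
prime.

Let `U` be **any smooth variety** over `k₀`, **not necessarily proper** (`AnyVar`): its cohomology `M`
is a finite-dimensional graded space with an action of `Γ`, not assumed to be pure or semisimple, and
there are the spaces `cyc V j` of the combinations of the classes of cycles of codimension `j` on
`V × U`, in `H(V × U) = H(V) ⊗ M`, for all smooth projective `V`, stable under pull-backs by morphisms
of `V`, products with cycles on `V`, and push-forward along the projections `V × V' × U ⟶ V' × U`.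

Let `Y = X i₁ ^ n₁ × (X i₂ ^ n₂ × (⋯ × Z))` with different indices and arbitrary exponents (`PowTower`;
the condition there for even-dimensional `X i` is void here).

**Theorem.**

1. The Tate conjecture for the smooth variety `Y × U` (cycles of all codimensions, all finite
   extensions of `k₀`) is equivalent to the Tate conjecture for `Z × U`.
2. The same holds for the open subvarieties, if homological and numerical equivalence coincide
   for the powers of the `X i` (`PowersHomNum`; for curves this is known in characteristic zero, and in
   general it is a theorem of the library for the `X i` above, `MP_0c8446_ag.SimultaneousDegenerations`)
   and the classes of cycles on `Y × U` are defined over finite extensions of `k₀` (`CyclesDefined`):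
   `TateOpens` for `Y × U` is equivalent to `TateOpens` for `Z × U`. Here `TateOpens` says that for all
   `j` the classes `c ∈ H^(2j)(Y × U)` for which `g c - χ(g)^j c`, `g` in an open subgroup, are
   combinations of classes of cycles of codimension `j`, are such combinations. If `Y × U` is
   projective, this is the Tate conjecture in codimension `j` for all open subvarieties of `Y × U`
   with complement of codimension at least `j`.

In particular, if the Tate conjecture is known for `U` (curves, open subvarieties of abelian
varieties or products of curves which are known to satisfy it, tori, homogeneous spaces of linear
groups, complements of arrangements of hyperplanes, moduli of pointed rational curves), then it holds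
for all products of `U` with powers of the `X i`.

The library contains the case of **proper** `U` of the first part as a lemma (`tate_sst`), and the
consequences for the standard conjectures (`MP_0c8446_ag.SimultaneousDegenerations`). New are the
arbitrary smooth varieties `U`, whose cohomology is neither pure nor self-dual nor semisimple, and the
open subvarieties. `MP_2a05c8_ag.NodalPowersTimesSmooth` needs for every `i` an element which acts by a
Picard-Lefschetz formula (rank one) on `T i` and **trivially on all other `T j`**, so separate places of
bad reduction; this is not possible for instance if all `X i` have bad reduction only at one
place or toric rank at least two everywhere. (Conversely it treats even dimensions.)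
`MP_2a05c8_ag.DifferentHeightsTimesSmooth` is a theorem of the same form on other varieties.

The idea of the proof. Let `M'` be the module `H(Z) ⊗ H(U)`, whatever it is. By the theory of extremal
elements (Goursat's lemma, and the ranks of the elements of square zero in the representations of simple
Lie algebras) the Lie algebra of the operators on the sum of the `T i` which kill all multilinear maps from
the `T i` to the twists of `M'` which are equivariant under a subgroup of finite index contains the
symplectic Lie algebra of every `T i`. This property passes from `M'` to `H(X j ^ n) ⊗ M'` for `j ≠ i`,
as a Tate class on a power is a family of multilinear maps; by the first fundamental theorem of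
invariant theory the Tate classes on `X i ^ n × Y × U` are combinations of external products of algebraic
classes on `X i ^ n` and of classes on `Y × U`. Homogeneous dual linear forms give the components on
`Y × U`, which are Tate classes. For the open subvarieties one applies this first to the classes of
cycles and then to the transcendental part (with respect to `X i ^ n`) of the given class.
-/

set_option autoImplicit false

open CategoryTheory AlgebraicGeometry

universe u

namespace Pool.Agent.Results.MP_2a05c8_ag.SemistableTimesSmooth

open Pool.Agent.H914 Pool.Agent.TH125.Gal Pool.Agent.N179.FO Pool.Agent.Hx88.NS
  Pool.Agent.Hx88.SS VarClass Obj WeilCohomology

/-- **The Tate conjecture for the products of powers of varieties with simultaneous semistable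
degenerations with arbitrary smooth varieties, and for the open subvarieties of these products.** -/
theorem result {k : Type u} [Field k] {𝒱 : VarClass k} {ops : CycleOps 𝒱}
    {W : WeilCohomology.{u, 0} ops} [IsAlgClosed W.K] {Γ : Type} [Group Γ] (χ : Γ →* W.Kˣ)
    {ι : Type} [Finite ι] (X : ι → GVar W Γ) (Z : GVar W Γ) (U : AnyVar W Γ)
    (h : SemistableTimes χ X Z U) (S : Set ι) (Y : GVar W Γ) (hY : PowTower X Z S Y) :
    (TateTimes χ Y U ↔ TateTimes χ Z U) ∧
      ((∀ i, PowersHomNum χ (X i)) → CyclesDefined χ Y U →
        (TateOpens χ Y U ↔ TateOpens χ Z U)) :=
  ⟨sst_times h hY, fun hX hd => sst_opens h hX hY hd⟩

end Pool.Agent.Results.MP_2a05c8_ag.SemistableTimesSmooth
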